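import Pool.Agent.Helper28.T3.StC

/-!
# Project T3, module SQFq: squarefree numbers in the classes 1 and 17 modulo 24
-/

set_option autoImplicit false

namespace Pool.Agent.Helper38.T3

open Pool.Agent.Helper28.T3

/-- the multiples of `k ^ 2` in the class `r` modulo 24 up to `N` -/
private def BB (r N k : ℕ) : Finset ℕ :=
  (Finset.range (N + 1)).filter fun D => D % 24 = r ∧ k ^ 2 ∣ D

private theorem coprime24 {k : ℕ} (h2 : k % 2 = 1) (h3 : k % 3 ≠ 0) : Nat.Coprime 24 (k ^ 2) := by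
  apply Nat.Coprime.pow_right
  have e2 : Nat.Coprime 2 k := by
    rw [Nat.Prime.coprime_iff_not_dvd Nat.prime_two]
    omega
  have e3 : Nat.Coprime 3 k := by
    rw [Nat.Prime.coprime_iff_not_dvd Nat.prime_three]
    omega
  have e := Nat.Coprime.mul_left (Nat.Coprime.pow_left 3 e2) e3
  norm_num at e
  exact e

private theorem card_BB {r N k : ℕ} (hk : 1 ≤ k) (h2 : k % 2 = 1) (h3 : k % 3 ≠ 0) :
    ((BB r N k).card : ℝ) ≤ (N : ℝ) / (24 * (k : ℝ) ^ 2) + 1 := by
  have hpos : 0 < 24 * k ^ 2 := by positivity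
  have hco := coprime24 h2 h3
  have h1 : (BB r N k).card ≤ (Finset.range (N / (24 * k ^ 2) + 1)).card := by
    apply Finset.card_le_card_of_injOn (fun D => D / (24 * k ^ 2))
    · intro D hD
      have hD' := (Finset.mem_filter.1 (Finset.mem_coe.1 hD)).1
      rw [Finset.mem_range] at hD'
      rw [Finset.coe_range, Set.mem_Iio]
      exact Nat.lt_succ_of_le (Nat.div_le_div_right (by omega))
    · intro D hD D' hD' he
      have a1 := (Finset.mem_filter.1 (Finset.mem_coe.1 hD)).2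
      have a2 := (Finset.mem_filter.1 (Finset.mem_coe.1 hD')).2
      have m1 : D ≡ D' [MOD 24] := by
        show D % 24 = D' % 24
        rw [a1.1, a2.1]
      have m2 : D ≡ D' [MOD k ^ 2] :=
        ((Nat.modEq_zero_iff_dvd.2 a1.2)).trans (Nat.modEq_zero_iff_dvd.2 a2.2).symm
      have m3 : D ≡ D' [MOD 24 * k ^ 2] := (Nat.modEq_and_modEq_iff_modEq_mul hco).1 ⟨m1, m2⟩
      have m4 : D % (24 * k ^ 2) = D' % (24 * k ^ 2) := m3
      have m5 : D / (24 * k ^ 2) = D' / (24 * k ^ 2) := he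
      rw [← Nat.div_add_mod D (24 * k ^ 2), ← Nat.div_add_mod D' (24 * k ^ 2), m4, m5]
  rw [Finset.card_range] at h1
  have h4 : ((N / (24 * k ^ 2) : ℕ) : ℝ) ≤ (N : ℝ) / ((24 * k ^ 2 : ℕ) : ℝ) := Nat.cast_div_le
  have h5 : ((BB r N k).card : ℝ) ≤ ((N / (24 * k ^ 2) : ℕ) : ℝ) + 1 := by exact_mod_cast h1
  push_cast at h4
  linarith

private theorem sum_f (J : ℕ) : ∑ j ∈ Finset.Icc 1 J,
    (1 / (6 * (j : ℝ) - 1) ^ 2 + 1 / (6 * (j : ℝ) + 1) ^ 2) ≤
      1 / 18 * (2 - 1 / ((J : ℝ) + 1 / 2)) := by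
  induction J with
  | zero => norm_num
  | succ J ih =>
    rw [Finset.sum_Icc_succ_top (by omega)]
    have hJ : (0 : ℝ) ≤ J := Nat.cast_nonneg J
    push_cast
    set x : ℝ := (J : ℝ) + 1 with hx
    have hx1 : 1 ≤ x := by linarith
    have key : 1 / (6 * x - 1) ^ 2 + 1 / (6 * x + 1) ^ 2 ≤
        1 / 18 * (1 / (x - 1 / 2) - 1 / (x + 1 / 2)) := by
      have a1 : 0 < 6 * x - 1 := by linarith
      have a2 : 0 < 6 * x + 1 := by linarith
      have a3 : 0 < x - 1 / 2 := by linarith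
      have a4 : 0 < x + 1 / 2 := by linarith
      have e1 : 1 / (6 * x - 1) ^ 2 + 1 / (6 * x + 1) ^ 2 =
          2 * (36 * x ^ 2 + 1) / ((6 * x - 1) * (6 * x + 1)) ^ 2 := by
        field_simp
        ring
      have e2 : 1 / 18 * (1 / (x - 1 / 2) - 1 / (x + 1 / 2)) =
          2 / (36 * x ^ 2 - 9) := by
        have a6 : 36 * x ^ 2 - 9 = 36 * ((x - 1 / 2) * (x + 1 / 2)) := by ring
        have a7 := a3.ne'
        have a8 := a4.ne'
        have a9 : 1 / (x - 1 / 2) - 1 / (x + 1 / 2) = 1 / ((x - 1 / 2) * (x + 1 / 2)) := by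
          rw [div_sub_div _ _ a7 a8]
          congr 1
          ring
        rw [a6, a9, mul_one_div, div_div, div_eq_div_iff (by positivity) (by positivity)]
        ring
      rw [e1, e2, div_le_div_iff₀ (by positivity) (by nlinarith)]
      nlinarith [sq_nonneg x]
    have e3 : x - 1 / 2 = (J : ℝ) + 1 / 2 := by rw [hx]; ring
    rw [e3] at key
    linarith

private theorem sum_f' (J : ℕ) : ∑ j ∈ Finset.Icc 1 J,
    (1 / (6 * (j : ℝ) - 1) ^ 2 + 1 / (6 * (j : ℝ) + 1) ^ 2) ≤ 1 / 9 := by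
  have h := sum_f J
  have h0 : 0 ≤ 1 / ((J : ℝ) + 1 / 2) := by positivity
  linarith

theorem hSQFq : StSQFq := by
  refine ⟨3, by norm_num, ?_⟩
  intro r hr N hN G hG
  classical
  set A : Finset ℕ := (Finset.range (N + 1)).filter fun D => D % 24 = r with hA
  set bad : Finset ℕ := A.filter fun D => ¬ Squarefree D with hbad
  set J : ℕ := Nat.sqrt N with hJ
  have hr24 : r < 24 := by omega
  -- lower bound for `A`
  have c1 : N / 24 ≤ A.card := by
    have := Finset.card_le_card_of_injOn (s := Finset.range (N / 24)) (t := A)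
      (fun j => 24 * j + r) (by
        intro j hj
        have hj' := Finset.mem_range.1 (Finset.mem_coe.1 hj)
        refine Finset.mem_coe.2 (Finset.mem_filter.2 ⟨Finset.mem_range.2 ?_, ?_⟩)
        · show 24 * j + r < N + 1
          omega
        · show (24 * j + r) % 24 = r
          omega) (by
        intro j _ j' _ he
        have he' : 24 * j + r = 24 * j' + r := he
        omega)
    rwa [Finset.card_range] at this
  have c1' : (N : ℝ) / 24 - 1 ≤ (A.card : ℝ) := by
    have h1 : N < 24 * (N / 24) + 24 := by omega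
    have h2 : (N : ℝ) < 24 * ((N / 24 : ℕ) : ℝ) + 24 := by exact_mod_cast h1
    have h3 : ((N / 24 : ℕ) : ℝ) ≤ (A.card : ℝ) := by exact_mod_cast c1
    linarith
  -- `A` is the union of `G` and `bad`
  have c2 : A.card ≤ G.card + bad.card := by
    refine (Finset.card_le_card ?_).trans (Finset.card_union_le G bad)
    intro D hD
    rw [Finset.mem_union]
    by_cases hs : Squarefree D
    · left
      have := Finset.mem_filter.1 hD
      have h2 := Finset.mem_range.1 this.1
      exact (hG D).2 ⟨by omega, hs, this.2⟩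
    · right
      exact Finset.mem_filter.2 ⟨hD, hs⟩
  -- the bad numbers
  have c3 : bad ⊆ (Finset.Icc 1 J).biUnion fun j => BB r N (6 * j - 1) ∪ BB r N (6 * j + 1) := by
    intro D hD
    have hD1 := Finset.mem_filter.1 hD
    have hD2 := Finset.mem_filter.1 hD1.1
    have hD3 := Finset.mem_range.1 hD2.1
    have hnsq := hD1.2
    rw [Nat.squarefree_iff_prime_squarefree] at hnsq
    push Not at hnsq
    obtain ⟨p, hp, hpD⟩ := hnsq
    have hD24 := hD2.2
    have hp2 : p ≠ 2 := by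
      rintro rfl
      have : 2 ∣ D := (Dvd.intro_left 2 rfl).trans hpD
      omega
    have hp3 : p ≠ 3 := by
      rintro rfl
      have : 3 ∣ D := (Dvd.intro_left 3 rfl).trans hpD
      omega
    have q2 : p % 2 = 1 := by
      rcases Nat.Prime.eq_two_or_odd hp with h | h
      · exact absurd h hp2
      · exact h
    have q3 : p % 3 ≠ 0 := by
      intro h
      have : 3 ∣ p := Nat.dvd_of_mod_eq_zero h
      have := (Nat.prime_dvd_prime_iff_eq Nat.prime_three hp).1 this
      exact hp3 this.symm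
    have q5 : 2 ≤ p := hp.two_le
    have hDpos : 0 < D := by
      rcases Nat.eq_zero_or_pos D with h | h
      · subst h
        omega
      · exact h
    have hle : p * p ≤ N := (Nat.le_of_dvd hDpos hpD).trans (by omega)
    have hpJ : p ≤ J := Nat.le_sqrt.2 hle
    rw [Finset.mem_biUnion]
    refine ⟨(p + 1) / 6, Finset.mem_Icc.2 ⟨by omega, by omega⟩, ?_⟩
    rw [Finset.mem_union]
    have hsq : p ^ 2 ∣ D := by
      rw [pow_two]
      exact hpD
    rcases (show p % 6 = 1 ∨ p % 6 = 5 by omega) with h | h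
    · right
      have e : 6 * ((p + 1) / 6) + 1 = p := by omega
      rw [e]
      exact Finset.mem_filter.2 ⟨hD2.1, hD24, hsq⟩
    · left
      have e : 6 * ((p + 1) / 6) - 1 = p := by omega
      rw [e]
      exact Finset.mem_filter.2 ⟨hD2.1, hD24, hsq⟩
  have c4 : (bad.card : ℝ) ≤ (N : ℝ) / 24 * (1 / 9) + 2 * (J : ℝ) := by
    have h1 : bad.card ≤ ∑ j ∈ Finset.Icc 1 J, ((BB r N (6 * j - 1)).card +
        (BB r N (6 * j + 1)).card) := by
      refine (Finset.card_le_card c3).trans (Finset.card_biUnion_le.trans ?_)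
      exact Finset.sum_le_sum fun j _ => Finset.card_union_le _ _
    have h2 : (bad.card : ℝ) ≤ ∑ j ∈ Finset.Icc 1 J, (((BB r N (6 * j - 1)).card : ℝ) +
        ((BB r N (6 * j + 1)).card : ℝ)) := by exact_mod_cast h1
    refine h2.trans ?_
    have h3 : ∀ j ∈ Finset.Icc 1 J, (((BB r N (6 * j - 1)).card : ℝ) +
        ((BB r N (6 * j + 1)).card : ℝ)) ≤
        (N : ℝ) / 24 * (1 / (6 * (j : ℝ) - 1) ^ 2 + 1 / (6 * (j : ℝ) + 1) ^ 2) + 2 := by
      intro j hj
      have hj1 := (Finset.mem_Icc.1 hj).1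
      have b1 := card_BB (r := r) (N := N) (k := 6 * j - 1) (by omega) (by omega) (by omega)
      have b2 := card_BB (r := r) (N := N) (k := 6 * j + 1) (by omega) (by omega) (by omega)
      have e1 : ((6 * j - 1 : ℕ) : ℝ) = 6 * (j : ℝ) - 1 := by
        rw [Nat.cast_sub (by omega)]
        push_cast
        ring
      have e2 : ((6 * j + 1 : ℕ) : ℝ) = 6 * (j : ℝ) + 1 := by push_cast; ring
      rw [e1] at b1
      rw [e2] at b2
      have hjr : (1 : ℝ) ≤ (j : ℝ) := by exact_mod_cast hj1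
      have n1 : (6 * (j : ℝ) - 1) ≠ 0 := by linarith
      have n2 : (6 * (j : ℝ) + 1) ≠ 0 := by linarith
      have e3 : (N : ℝ) / (24 * (6 * (j : ℝ) - 1) ^ 2) =
          (N : ℝ) / 24 * (1 / (6 * (j : ℝ) - 1) ^ 2) := by
        field_simp
      have e4 : (N : ℝ) / (24 * (6 * (j : ℝ) + 1) ^ 2) =
          (N : ℝ) / 24 * (1 / (6 * (j : ℝ) + 1) ^ 2) := by
        field_simp
      rw [e3] at b1
      rw [e4] at b2
      linarith
    refine (Finset.sum_le_sum h3).trans ?_
    rw [Finset.sum_add_distrib, ← Finset.mul_sum, Finset.sum_const, Nat.card_Icc]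
    have h4 := sum_f' J
    have h5 : (N : ℝ) / 24 * ∑ j ∈ Finset.Icc 1 J,
        (1 / (6 * (j : ℝ) - 1) ^ 2 + 1 / (6 * (j : ℝ) + 1) ^ 2) ≤ (N : ℝ) / 24 * (1 / 9) :=
      mul_le_mul_of_nonneg_left h4 (by positivity)
    have h6 : (J + 1 - 1) • (2 : ℝ) = 2 * (J : ℝ) := by
      rw [Nat.add_sub_cancel, nsmul_eq_mul]
      ring
    rw [h6]
    linarith
  -- the error terms
  have hNr : (1 : ℝ) ≤ (N : ℝ) := by exact_mod_cast hN
  have c5 : (J : ℝ) ≤ EX (N : ℝ) := by
    have h1 : (J : ℝ) ≤ Real.sqrt (N : ℝ) := Real.nat_sqrt_le_real_sqrt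
    refine h1.trans ?_
    rw [Real.sqrt_eq_rpow]
    unfold EX
    exact Real.rpow_le_rpow_of_exponent_le hNr (by norm_num)
  have c6 : (1 : ℝ) ≤ EX (N : ℝ) := by
    unfold EX
    exact Real.one_le_rpow hNr (by norm_num)
  have c7 : (A.card : ℝ) ≤ (G.card : ℝ) + (bad.card : ℝ) := by exact_mod_cast c2
  linarith

end Pool.Agent.Helper38.T3
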